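import Mathlib

set_option autoImplicit false
open Filter Topology MeasureTheory ProbabilityTheory
open scoped Classical

namespace Pool.Agent.H173R3.CFSimple

/-! ### Sequences with prescribed frequencies -/

/-- For every probability distribution on `ℕ` there is a sequence with these frequencies. -/
theorem exists_seq (p : ℕ → ℝ) (hp : ∀ k, 0 ≤ p k) (hs : HasSum p 1) :
    ∃ u : ℕ → ℕ, ∀ k : ℕ,
      Tendsto (fun n : ℕ => (∑ i ∈ Finset.range n, (if u i = k then (1:ℝ) else 0)) / n)
        atTop (𝓝 (p k)) := by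
  have hs' : HasSum (fun k => ENNReal.ofReal (p k)) 1 := by
    have h1 : Summable p := hs.summable
    have h2 : ∑' k, ENNReal.ofReal (p k) = 1 := by
      rw [← ENNReal.ofReal_tsum_of_nonneg hp h1, hs.tsum_eq, ENNReal.ofReal_one]
    rw [← h2]
    exact ENNReal.summable.hasSum
  let P : PMF ℕ := ⟨fun k => ENNReal.ofReal (p k), hs'⟩
  let ν : Measure ℕ := P.toMeasure
  let μ : Measure (ℕ → ℕ) := Measure.infinitePi (fun _ : ℕ => ν)
  have key : ∀ k : ℕ, ∀ᵐ ω ∂μ,
      Tendsto (fun n : ℕ => (∑ i ∈ Finset.range n, (if ω i = k then (1:ℝ) else 0)) / n)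
        atTop (𝓝 (p k)) := by
    intro k
    let f : ℕ → ℝ := fun j => if j = k then 1 else 0
    have hf : Measurable f := measurable_from_top
    have hmeas : ∀ i : ℕ, Measurable (fun ω : ℕ → ℕ => f (ω i)) := fun i =>
      hf.comp (measurable_pi_apply i)
    have hint : ∀ i : ℕ, Integrable (fun ω : ℕ → ℕ => f (ω i)) μ := by
      intro i
      refine Integrable.of_bound (hmeas i).aestronglyMeasurable 1 ?_
      refine Filter.Eventually.of_forall ?_
      intro ω
      simp only [f]
      split_ifs <;> simp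
    have hind : iIndepFun (fun (i : ℕ) (ω : ℕ → ℕ) => f (ω i)) μ :=
      iIndepFun_infinitePi (P := fun _ : ℕ => ν) (X := fun _ => f) (fun _ => hf)
    have hev : ∀ i : ℕ, μ.map (fun ω : ℕ → ℕ => ω i) = ν := fun i =>
      Measure.infinitePi_map_eval (fun _ : ℕ => ν) i
    have hmapf : ∀ i : ℕ, μ.map (fun ω : ℕ → ℕ => f (ω i)) = ν.map f := by
      intro i
      rw [← hev i, Measure.map_map hf (measurable_pi_apply i)]
      rfl
    have hident : ∀ i : ℕ, IdentDistrib (fun ω : ℕ → ℕ => f (ω i)) (fun ω : ℕ → ℕ => f (ω 0)) μ μ := by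
      intro i
      refine ⟨(hmeas i).aemeasurable, (hmeas 0).aemeasurable, ?_⟩
      rw [hmapf i, hmapf 0]
    have hval : μ[fun ω : ℕ → ℕ => f (ω 0)] = p k := by
      have h1 : ∫ ω, f (ω 0) ∂μ = ∫ j, f j ∂ν := by
        rw [← hev 0, integral_map (measurable_pi_apply 0).aemeasurable hf.aestronglyMeasurable]
      rw [h1]
      have h2 : f = Set.indicator {k} (fun _ => (1:ℝ)) := by
        funext j
        simp [f, Set.indicator_apply]
      rw [h2, integral_indicator (MeasurableSet.singleton k)]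
      simp only [integral_const, MeasurableSet.univ, measureReal_restrict_apply, Set.univ_inter,
        smul_eq_mul, mul_one]
      simp only [ν, Measure.real]
      rw [PMF.toMeasure_apply_singleton _ _ (MeasurableSet.singleton k)]
      change (ENNReal.ofReal (p k)).toReal = p k
      exact ENNReal.toReal_ofReal (hp k)
    have := strong_law_ae_real (μ := μ) (fun i ω => f (ω i)) (hint 0)
      (fun i j hij => hind.indepFun hij) hident
    rw [hval] at this
    exact this
  have hall : ∀ᵐ ω ∂μ, ∀ k : ℕ,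
      Tendsto (fun n : ℕ => (∑ i ∈ Finset.range n, (if ω i = k then (1:ℝ) else 0)) / n)
        atTop (𝓝 (p k)) := by
    rw [ae_all_iff]
    exact key
  exact hall.exists

/-! ### Continued fractions from digits -/

/-- Every sequence of positive digits is realised by complete quotients. -/
theorem exists_quot (a : ℕ → ℕ) (ha : ∀ i, 1 ≤ a i) :
    ∃ ξ : ℕ → ℝ, ∀ i, 1 < ξ i ∧ ξ i = a i + 1 / ξ (i + 1) := by
  let K : ℕ → Set (ℕ → ℝ) := fun N =>
    (Set.univ.pi fun i => Set.Icc (1:ℝ) (a i + 1)) ∩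
      {ξ : ℕ → ℝ | ∀ i < N, ξ i * ξ (i+1) = a i * ξ (i + 1) + 1}
  have hcomp : IsCompact (Set.univ.pi fun i => Set.Icc (1:ℝ) (a i + 1)) :=
    isCompact_univ_pi fun i => isCompact_Icc
  have hclosed : ∀ N, IsClosed (K N) := by
    intro N
    refine hcomp.isClosed.inter ?_
    have : {ξ : ℕ → ℝ | ∀ i < N, ξ i * ξ (i+1) = a i * ξ (i + 1) + 1} =
        ⋂ i : ℕ, ⋂ _ : i < N, {ξ : ℕ → ℝ | ξ i * ξ (i+1) = a i * ξ (i + 1) + 1} := by
      ext ξ
      simp
    rw [this]
    refine isClosed_iInter fun i => isClosed_iInter fun _ => ?_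
    exact isClosed_eq (by fun_prop) (by fun_prop)
  have hmono : ∀ N, K (N+1) ⊆ K N := by
    intro N ξ hξ
    exact ⟨hξ.1, fun i hi => hξ.2 i (by omega)⟩
  have hne : ∀ N, (K N).Nonempty := by
    intro N
    -- build by recursion from the end, generalising over the digit sequence
    have key : ∀ N : ℕ, ∀ a : ℕ → ℕ, (∀ i, 1 ≤ a i) → ∃ ξ : ℕ → ℝ,
        (∀ i, 1 ≤ ξ i ∧ ξ i ≤ a i + 1) ∧ ∀ i < N, ξ i * ξ (i+1) = a i * ξ (i + 1) + 1 := by
      intro N
      induction N with
      | zero =>
        intro a ha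
        refine ⟨fun _ => 1, fun i => ⟨le_refl _, ?_⟩, fun i hi => absurd hi (Nat.not_lt_zero _)⟩
        have : (0:ℝ) ≤ a i := Nat.cast_nonneg _
        linarith
      | succ N ih =>
        intro a ha
        obtain ⟨ξ, h1, h2⟩ := ih (fun i => a (i+1)) (fun i => ha (i+1))
        refine ⟨fun i => Nat.casesOn i ((a 0 : ℝ) + 1 / ξ 0) ξ, ?_, ?_⟩
        · intro i
          cases i with
          | zero =>
            have h0 := h1 0
            have ha0 : (1:ℝ) ≤ a 0 := by exact_mod_cast ha 0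
            have hpos : 0 < ξ 0 := by linarith
            have h3 : 1 / ξ 0 ≤ 1 := by
              rw [div_le_one hpos]; exact h0.1
            have h4 : 0 < 1 / ξ 0 := by positivity
            constructor
            · show (1:ℝ) ≤ (a 0 : ℝ) + 1 / ξ 0
              linarith
            · show (a 0 : ℝ) + 1 / ξ 0 ≤ a 0 + 1
              linarith
          | succ i => exact h1 i
        · intro i hi
          cases i with
          | zero =>
            have hpos : 0 < ξ 0 := by linarith [(h1 0).1]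
            show ((a 0 : ℝ) + 1 / ξ 0) * ξ 0 = a 0 * ξ 0 + 1
            field_simp
          | succ i =>
            exact h2 i (by omega)
    obtain ⟨ξ, h1, h2⟩ := key N a ha
    exact ⟨ξ, fun i _ => ⟨(h1 i).1, (h1 i).2⟩, h2⟩
  have hcompact0 : IsCompact (K 0) := hcomp.inter_right (by
    have : {ξ : ℕ → ℝ | ∀ i < 0, ξ i * ξ (i+1) = a i * ξ (i + 1) + 1} = Set.univ := by
      ext ξ; simp
    rw [this]; exact isClosed_univ)
  obtain ⟨ξ, hξ⟩ := IsCompact.nonempty_iInter_of_sequence_nonempty_isCompact_isClosed K hmono hne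
    hcompact0 hclosed
  rw [Set.mem_iInter] at hξ
  have hge : ∀ i, 1 ≤ ξ i := fun i => ((hξ 0).1 i (Set.mem_univ _)).1
  have heq : ∀ i, ξ i = a i + 1 / ξ (i+1) := by
    intro i
    have h := (hξ (i+1)).2 i (by omega)
    have hpos : 0 < ξ (i+1) := by linarith [hge (i+1)]
    field_simp
    linarith
  refine ⟨ξ, fun i => ⟨?_, heq i⟩⟩
  have hpos : 0 < ξ (i+1) := by linarith [hge (i+1)]
  have h1 : (1:ℝ) ≤ a i := by exact_mod_cast ha i
  have h2 : 0 < 1 / ξ (i+1) := by positivity
  rw [heq i]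
  linarith

/-- Partial quotients are read off from complete quotients. -/
theorem partDens_get (n : ℕ) : ∀ (x : ℝ) (a : ℕ → ℕ) (ξ : ℕ → ℝ),
    (∀ i, 1 < ξ i ∧ ξ i = a i + 1 / ξ (i + 1)) → Int.fract x = 1 / ξ 0 →
    (GenContFract.of x).s.get? n = some ⟨1, (a n : ℝ)⟩ := by
  induction n with
  | zero =>
    intro x a ξ h hx
    have hpos : 0 < ξ 0 := by linarith [(h 0).1]
    have hne : Int.fract x ≠ 0 := by rw [hx]; positivity
    have h0 := GenContFract.of_s_head hne
    have hfl : ⌊(Int.fract x)⁻¹⌋ = (a 0 : ℤ) := by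
      rw [hx, one_div, inv_inv, Int.floor_eq_iff]
      have h1 : 1 / ξ 1 < 1 := by
        rw [div_lt_one (by linarith [(h 1).1])]; exact (h 1).1
      have h2 : 0 < 1 / ξ 1 := by
        have := (h 1).1
        positivity
      have h3 := (h 0).2
      simp only [zero_add] at h3
      constructor
      · push_cast; linarith
      · push_cast; linarith
    rw [hfl] at h0
    have : (GenContFract.of x).s.get? 0 = (GenContFract.of x).s.head := rfl
    rw [this, h0]
    simp
  | succ n ih =>
    intro x a ξ h hx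
    rw [GenContFract.of_s_succ]
    have hpos : 0 < ξ 0 := by linarith [(h 0).1]
    rw [hx, one_div, inv_inv]
    refine ih (ξ 0) (fun i => a (i+1)) (fun i => ξ (i+1)) (fun i => h (i+1)) ?_
    have h1 : 1 / ξ 1 < 1 := by
      rw [div_lt_one (by linarith [(h 1).1])]; exact (h 1).1
    have h2 : 0 < 1 / ξ 1 := by
      have := (h 1).1
      positivity
    have h3 := (h 0).2
    simp only [zero_add] at h3
    show Int.fract (ξ 0) = 1 / ξ (0+1)
    rw [Int.fract_eq_iff]
    refine ⟨by simpa using h2.le, by simpa using h1, (a 0 : ℤ), ?_⟩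
    simp only [zero_add]
    push_cast
    linarith

theorem partDens_eq_some_iff (x : ℝ) (a : ℕ → ℕ) (ξ : ℕ → ℝ)
    (h : ∀ i, 1 < ξ i ∧ ξ i = a i + 1 / ξ (i + 1)) (hx : Int.fract x = 1 / ξ 0) (n k : ℕ) :
    (GenContFract.of x).partDens.get? n = some (k : ℝ) ↔ a n = k := by
  rw [GenContFract.partDen_eq_s_b (partDens_get n x a ξ h hx)]
  constructor
  · intro h
    have h' : (a n : ℝ) = k := Option.some.inj h
    exact_mod_cast h'
  · rintro rfl
    rfl

theorem card_eq_sum (x : ℝ) (a : ℕ → ℕ) (ξ : ℕ → ℝ)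
    (h : ∀ i, 1 < ξ i ∧ ξ i = a i + 1 / ξ (i + 1)) (hx : Int.fract x = 1 / ξ 0) (n k : ℕ) :
    (((Finset.range n).filter
      (fun i => (GenContFract.of x).partDens.get? i = some (k : ℝ))).card : ℝ) =
      ∑ i ∈ Finset.range n, (if a i = k then (1:ℝ) else 0) := by
  rw [Finset.card_filter]
  push_cast
  refine Finset.sum_congr rfl fun i _ => ?_
  simp only [partDens_eq_some_iff x a ξ h hx]

/-! ### Passing from blocks to all initial segments -/

theorem tendsto_of_block (f : ℕ → ℝ) (hf : ∀ i, 0 ≤ f i) (hf1 : ∀ i, f i ≤ 1) (d : ℕ)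
    (hd : 0 < d) (L : ℝ)
    (h : Tendsto (fun m : ℕ => (∑ i ∈ Finset.range (d * m), f i) / m) atTop (𝓝 L)) :
    Tendsto (fun n : ℕ => (∑ i ∈ Finset.range n, f i) / n) atTop (𝓝 (L / d)) := by
  have hdR : (0:ℝ) < d := by exact_mod_cast hd
  -- the main term
  have hdiv : Tendsto (fun n : ℕ => n / d) atTop atTop := Nat.tendsto_div_const_atTop hd.ne'
  have h1 : Tendsto (fun n : ℕ => (∑ i ∈ Finset.range (d * (n / d)), f i) / ((n / d : ℕ) : ℝ))
      atTop (𝓝 L) := h.comp hdiv
  have h2 : Tendsto (fun n : ℕ => ((n / d : ℕ) : ℝ) / n) atTop (𝓝 (1 / d)) := by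
    have h3 : Tendsto (fun n : ℕ => (1:ℝ) / d - 1 / n) atTop (𝓝 (1 / d)) := by
      have := (tendsto_const_nhds (x := (1:ℝ)/d) (f := (atTop : Filter ℕ))).sub
        (tendsto_one_div_atTop_nhds_zero_nat (𝕜 := ℝ))
      simpa using this
    refine tendsto_of_tendsto_of_tendsto_of_le_of_le' h3 tendsto_const_nhds ?_ ?_
    · filter_upwards [eventually_gt_atTop 0] with n hn
      have hnR : (0:ℝ) < n := by exact_mod_cast hn
      have h4 : n < d * (n / d) + d := by
        have := Nat.div_add_mod n d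
        have := Nat.mod_lt n hd
        omega
      have h5 : (n:ℝ) < d * ((n / d : ℕ) : ℝ) + d := by exact_mod_cast h4
      rw [div_sub_div _ _ hdR.ne' hnR.ne', div_le_div_iff₀ (by positivity) hnR]
      nlinarith
    · filter_upwards [eventually_gt_atTop 0] with n hn
      have hnR : (0:ℝ) < n := by exact_mod_cast hn
      have h4 : d * (n / d) ≤ n := Nat.mul_div_le n d
      have h5 : (d:ℝ) * ((n / d : ℕ) : ℝ) ≤ n := by exact_mod_cast h4
      rw [div_le_div_iff₀ hnR hdR]
      linarith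
  have h3 : Tendsto (fun n : ℕ => (∑ i ∈ Finset.range (d * (n / d)), f i) / n) atTop (𝓝 (L / d)) := by
    have h4 := h1.mul h2
    have h5 : L * (1 / (d:ℝ)) = L / d := by ring
    rw [h5] at h4
    refine h4.congr' ?_
    filter_upwards [eventually_ge_atTop d] with n hn
    have h6 : 0 < n / d := Nat.div_pos hn hd
    have h7 : (0:ℝ) < ((n / d : ℕ) : ℝ) := by exact_mod_cast h6
    have h8 : (0:ℝ) < n := by exact_mod_cast (lt_of_lt_of_le hd hn)
    field_simp
  have h4 : Tendsto (fun n : ℕ => (∑ i ∈ Finset.range (d * (n / d)), f i) / n + d / n) atTop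
      (𝓝 (L / d)) := by
    have h5 : Tendsto (fun n : ℕ => (d : ℝ) / n) atTop (𝓝 0) :=
      tendsto_const_div_atTop_nhds_zero_nat (d:ℝ)
    simpa using h3.add h5
  refine tendsto_of_tendsto_of_tendsto_of_le_of_le' h3 h4 ?_ ?_
  · filter_upwards with n
    refine div_le_div_of_nonneg_right ?_ (Nat.cast_nonneg n)
    refine Finset.sum_le_sum_of_subset_of_nonneg ?_ (fun i _ _ => hf i)
    intro i hi
    rw [Finset.mem_range] at hi ⊢
    exact lt_of_lt_of_le hi (Nat.mul_div_le n d)
  · filter_upwards with n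
    rw [← add_div]
    refine div_le_div_of_nonneg_right ?_ (Nat.cast_nonneg n)
    have hle : d * (n / d) ≤ n := Nat.mul_div_le n d
    rw [← Finset.sum_range_add_sum_Ico _ hle]
    have h5 : ∑ i ∈ Finset.Ico (d * (n / d)) n, f i ≤ ∑ i ∈ Finset.Ico (d * (n / d)) n, (1:ℝ) :=
      Finset.sum_le_sum fun i _ => hf1 i
    have h6 : ∑ i ∈ Finset.Ico (d * (n / d)) n, (1:ℝ) ≤ d := by
      rw [Finset.sum_const, Nat.card_Ico, nsmul_eq_mul, mul_one]
      have : n - d * (n / d) ≤ d := by
        have := Nat.div_add_mod n d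
        have := Nat.mod_lt n hd
        omega
      exact_mod_cast this
    linarith

/-! ### The Gauss–Kuzmin weights -/

/-- The Gauss–Kuzmin weight of the digit `k`. -/
noncomputable def P (k : ℕ) : ℝ := Real.logb 2 (1 + 1 / ((k : ℝ) * ((k : ℝ) + 2)))

noncomputable def g (k : ℕ) : ℝ := Real.logb 2 (1 + 1 / (k : ℝ))

theorem P_eq (k : ℕ) (hk : 1 ≤ k) : P k = g k - g (k + 1) := by
  have hkR : (0:ℝ) < k := by exact_mod_cast hk
  unfold P g
  rw [← Real.logb_div (by positivity) (by positivity)]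
  congr 1
  push_cast
  field_simp
  ring

theorem P_nonneg (k : ℕ) : 0 ≤ P k := by
  unfold P
  apply Real.logb_nonneg (by norm_num)
  have : (0:ℝ) ≤ 1 / ((k : ℝ) * ((k : ℝ) + 2)) := by positivity
  linarith

theorem hasSum_P : HasSum (fun j : ℕ => P (j + 1)) 1 := by
  rw [hasSum_iff_tendsto_nat_of_nonneg (fun j => P_nonneg _)]
  have h1 : ∀ n : ℕ, ∑ j ∈ Finset.range n, P (j + 1) = g 1 - g (n + 1) := by
    intro n
    induction n with
    | zero => simp
    | succ n ih =>
      rw [Finset.sum_range_succ, ih, P_eq (n+1) (by omega)]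
      ring
  have h2 : g 1 = 1 := by
    unfold g
    norm_num
  have h3 : Tendsto (fun n : ℕ => g (n + 1)) atTop (𝓝 0) := by
    have h4 : Tendsto (fun n : ℕ => 1 + 1 / ((n:ℝ) + 1)) atTop (𝓝 (1 + 0)) :=
      tendsto_const_nhds.add tendsto_one_div_add_atTop_nhds_zero_nat
    have h5 : ContinuousAt (Real.logb 2) (1 + 0) := by
      apply Real.continuousAt_logb
      norm_num
    have h6 := h5.tendsto.comp h4
    simp only [add_zero, Real.logb_one] at h6
    refine h6.congr fun n => ?_
    simp [g]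
  simp only [h1, h2]
  have := (tendsto_const_nhds (x := (1:ℝ)) (f := (atTop : Filter ℕ))).sub h3
  simpa using this

theorem logb_le {x : ℝ} (hx : 0 < x) (c : ℕ) (r : ℝ) (hr : 0 < r) (h : x ^ c ≤ r) (hc : 0 < c) :
    c * Real.logb 2 x ≤ Real.logb 2 r := by
  have h1 : Real.logb 2 (x ^ c) ≤ Real.logb 2 r :=
    Real.logb_le_logb_of_le (by norm_num) (by positivity) h
  rwa [Real.logb_pow] at h1

theorem le_logb {x : ℝ} (hx : 0 < x) (c : ℕ) (r : ℝ) (hr : 0 < r) (h : r ≤ x ^ c) :
    Real.logb 2 r ≤ c * Real.logb 2 x := by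
  have h1 : Real.logb 2 r ≤ Real.logb 2 (x ^ c) :=
    Real.logb_le_logb_of_le (by norm_num) (by positivity) h
  rwa [Real.logb_pow] at h1

theorem P1_ge : 2 ≤ 5 * P 1 := by
  have h := le_logb (x := 4/3) (by norm_num) 5 4 (by norm_num) (by norm_num)
  have h4 : Real.logb 2 4 = 2 := by
    rw [show (4:ℝ) = 2 ^ (2:ℕ) by norm_num, Real.logb_pow, Real.logb_self_eq_one (by norm_num)]
    norm_num
  have h1 : P 1 = Real.logb 2 (4/3) := by
    unfold P; norm_num
  rw [h1]
  push_cast at h
  linarith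

theorem P1_gt : 1 / 3 < P 1 := by
  have h1 : P 1 = Real.logb 2 (4/3) := by
    unfold P; norm_num
  have h2 : Real.logb 2 2 < Real.logb 2 ((4/3) ^ 3) :=
    Real.logb_lt_logb (by norm_num) (by norm_num) (by norm_num)
  rw [Real.logb_pow, Real.logb_self_eq_one (by norm_num)] at h2
  rw [h1]
  push_cast at h2
  linarith

theorem P2_le : 5 * P 2 ≤ 1 := by
  have h := logb_le (x := 9/8) (by norm_num) 5 2 (by norm_num) (by norm_num) (by norm_num)
  rw [Real.logb_self_eq_one (by norm_num)] at h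
  have h1 : P 2 = Real.logb 2 (9/8) := by
    unfold P; norm_num
  rw [h1]
  push_cast at h
  linarith

theorem P24_ge : 1 ≤ 5 * P 2 + 5 * P 4 := by
  have h := le_logb (x := 9/8 * (25/24)) (by norm_num) 5 2 (by norm_num) (by norm_num)
  rw [Real.logb_self_eq_one (by norm_num), Real.logb_mul (by norm_num) (by norm_num)] at h
  have h1 : P 2 = Real.logb 2 (9/8) := by
    unfold P; norm_num
  have h2 : P 4 = Real.logb 2 (25/24) := by
    unfold P; norm_num
  rw [h1, h2]
  push_cast at h
  linarith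

/-- distribution of the two free digits (shifted by one) -/
noncomputable def pA (j : ℕ) : ℝ :=
  (5 * P (j + 1) + (if j = 0 then -2 else 0) + (if j = 1 then - (5 * P 2) else 0)
    + (if j = 3 then 5 * P 2 - 1 else 0)) / 2

/-- distribution of the even digit: digit `2 (j+1)`. -/
noncomputable def pB (j : ℕ) : ℝ :=
  (if j = 0 then 5 * P 2 else 0) + (if j = 1 then 1 - 5 * P 2 else 0)

theorem pA_nonneg (j : ℕ) : 0 ≤ pA j := by
  unfold pA
  have hj := P_nonneg (j+1)
  have h1 := P1_ge
  have h2 := P2_le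
  have h3 := P24_ge
  by_cases h0 : j = 0
  · subst h0; norm_num; linarith
  by_cases h1' : j = 1
  · subst h1'; norm_num
  by_cases h3' : j = 3
  · subst h3'; norm_num; linarith
  simp only [h0, h1', h3', if_false]
  linarith

theorem pB_nonneg (j : ℕ) : 0 ≤ pB j := by
  unfold pB
  have h1 := P_nonneg 2
  have h2 := P2_le
  split_ifs <;> linarith

theorem hasSum_pA : HasSum pA 1 := by
  have h := (((hasSum_P.mul_left 5).add (hasSum_ite_eq 0 (-2:ℝ))).add
    (hasSum_ite_eq 1 (-(5 * P 2)))).add (hasSum_ite_eq 3 (5 * P 2 - 1))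
  have h2 := h.div_const 2
  have h3 : (5 * 1 + -2 + -(5 * P 2) + (5 * P 2 - 1)) / 2 = (1:ℝ) := by ring
  rw [h3] at h2
  exact h2

theorem hasSum_pB : HasSum pB 1 := by
  have h := (hasSum_ite_eq 0 (5 * P 2)).add (hasSum_ite_eq 1 (1 - 5 * P 2))
  have h3 : (5 * P 2) + (1 - 5 * P 2) = (1:ℝ) := by ring
  rw [h3] at h
  exact h

/-! ### The number -/

/-- digits of `x`. -/
def dig (u v : ℕ → ℕ) (i : ℕ) : ℕ :=
  if i % 5 = 0 then u (i / 5) + 1
  else if i % 5 = 1 then 1
  else if i % 5 = 2 then 1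
  else if i % 5 = 3 then u (i / 5) + 1
  else 2 * (v (i / 5) + 1)

/-- digits of `x / 2`. -/
def dig2 (u v : ℕ → ℕ) (i : ℕ) : ℕ :=
  if i % 3 = 0 then 2 * (u (i / 3) + 1) + 1
  else if i % 3 = 1 then 2 * (u (i / 3) + 1) + 1
  else v (i / 3) + 1

theorem dig_pos (u v : ℕ → ℕ) (i : ℕ) : 1 ≤ dig u v i := by
  unfold dig
  split_ifs <;> omega

theorem dig2_pos (u v : ℕ → ℕ) (i : ℕ) : 1 ≤ dig2 u v i := by
  unfold dig2
  split_ifs <;> omega

/-- Frequencies of the digits of `x`. -/
theorem freq_dig (u v : ℕ → ℕ)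
    (hu : ∀ k : ℕ, Tendsto (fun n : ℕ => (∑ i ∈ Finset.range n, (if u i = k then (1:ℝ) else 0)) / n)
        atTop (𝓝 (pA k)))
    (hv : ∀ k : ℕ, Tendsto (fun n : ℕ => (∑ i ∈ Finset.range n, (if v i = k then (1:ℝ) else 0)) / n)
        atTop (𝓝 (pB k))) (k : ℕ) (hk : 1 ≤ k) :
    Tendsto (fun n : ℕ => (∑ i ∈ Finset.range n, (if dig u v i = k then (1:ℝ) else 0)) / n)
      atTop (𝓝 (P k)) := by
  -- frequencies of the even digit
  have hw : Tendsto (fun n : ℕ =>
      (∑ i ∈ Finset.range n, (if 2 * (v i + 1) = k then (1:ℝ) else 0)) / n) atTop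
      (𝓝 (if k = 2 then 5 * P 2 else if k = 4 then 1 - 5 * P 2 else 0)) := by
    by_cases hev : k % 2 = 0
    · have h1 := hv (k / 2 - 1)
      have h2 : ∀ i, (2 * (v i + 1) = k) ↔ (v i = k / 2 - 1) := by
        intro i; omega
      simp only [h2]
      have h3 : pB (k / 2 - 1) =
          (if k = 2 then 5 * P 2 else if k = 4 then 1 - 5 * P 2 else 0) := by
        unfold pB
        by_cases hk2 : k = 2
        · subst hk2; norm_num
        by_cases hk4 : k = 4
        · subst hk4; norm_num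
        have h4 : ¬ (k / 2 - 1 = 0) := by omega
        have h5 : ¬ (k / 2 - 1 = 1) := by omega
        simp [hk2, hk4, h4, h5]
      rw [← h3]
      exact h1
    · have h2 : ∀ i, ¬ (2 * (v i + 1) = k) := by
        intro i; omega
      have h3 : ¬ k = 2 := by omega
      have h4 : ¬ k = 4 := by omega
      simp only [h2, h3, h4, if_false, Finset.sum_const_zero, zero_div]
      exact tendsto_const_nhds
  have hu' := hu (k - 1)
  have h2 : ∀ i, (u i = k - 1) ↔ (u i + 1 = k) := by
    intro i; omega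
  simp only [h2] at hu'
  -- block sums
  have hblock : ∀ m : ℕ, ∑ i ∈ Finset.range (5 * m), (if dig u v i = k then (1:ℝ) else 0) =
      2 * (∑ i ∈ Finset.range m, (if u i + 1 = k then (1:ℝ) else 0)) +
      2 * m * (if k = 1 then 1 else 0) +
      ∑ i ∈ Finset.range m, (if 2 * (v i + 1) = k then (1:ℝ) else 0) := by
    intro m
    induction m with
    | zero => simp
    | succ m ih =>
      rw [show 5 * (m + 1) = 5 * m + 5 by ring, Finset.sum_range_succ, Finset.sum_range_succ,
        Finset.sum_range_succ, Finset.sum_range_succ, Finset.sum_range_succ, ih,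
        Finset.sum_range_succ, Finset.sum_range_succ]
      have e0 : dig u v (5 * m) = u m + 1 := by
        unfold dig
        have : (5 * m) % 5 = 0 := by omega
        have h' : (5 * m) / 5 = m := by omega
        simp [this, h']
      have e1 : dig u v (5 * m + 1) = 1 := by
        unfold dig
        have : (5 * m + 1) % 5 = 1 := by omega
        simp [this]
      have e2 : dig u v (5 * m + 2) = 1 := by
        unfold dig
        have : (5 * m + 2) % 5 = 2 := by omega
        simp [this]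
      have e3 : dig u v (5 * m + 3) = u m + 1 := by
        unfold dig
        have : (5 * m + 3) % 5 = 3 := by omega
        have h' : (5 * m + 3) / 5 = m := by omega
        simp [this, h']
      have e4 : dig u v (5 * m + 4) = 2 * (v m + 1) := by
        unfold dig
        have : (5 * m + 4) % 5 = 4 := by omega
        have h' : (5 * m + 4) / 5 = m := by omega
        simp [this, h']
      rw [e0, e1, e2, e3, e4]
      have : (1 = k) ↔ (k = 1) := eq_comm
      simp only [this]
      push_cast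
      ring
  have hlim : Tendsto (fun m : ℕ =>
      (∑ i ∈ Finset.range (5 * m), (if dig u v i = k then (1:ℝ) else 0)) / m) atTop
      (𝓝 (5 * P k)) := by
    have h3 : Tendsto (fun m : ℕ =>
        2 * ((∑ i ∈ Finset.range m, (if u i + 1 = k then (1:ℝ) else 0)) / m) +
        2 * (if k = 1 then (1:ℝ) else 0) +
        (∑ i ∈ Finset.range m, (if 2 * (v i + 1) = k then (1:ℝ) else 0)) / m) atTop
        (𝓝 (2 * pA (k - 1) + 2 * (if k = 1 then 1 else 0) +
          (if k = 2 then 5 * P 2 else if k = 4 then 1 - 5 * P 2 else 0))) :=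
      ((hu'.const_mul 2).add tendsto_const_nhds).add hw
    have h4 : 2 * pA (k - 1) + 2 * (if k = 1 then 1 else 0) +
          (if k = 2 then 5 * P 2 else if k = 4 then 1 - 5 * P 2 else 0) = 5 * P k := by
      unfold pA
      by_cases hk1 : k = 1
      · subst hk1; norm_num; ring
      by_cases hk2 : k = 2
      · subst hk2; norm_num
      by_cases hk4 : k = 4
      · subst hk4; norm_num; ring
      have h5 : ¬ (k - 1 = 0) := by omega
      have h6 : ¬ (k - 1 = 1) := by omega
      have h7 : ¬ (k - 1 = 3) := by omega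
      have h8 : k - 1 + 1 = k := by omega
      simp only [h5, h6, h7, h8, hk1, hk2, hk4, if_false]
      ring
    rw [h4] at h3
    refine h3.congr' ?_
    filter_upwards [eventually_gt_atTop 0] with m hm
    have hmR : (0:ℝ) < m := by exact_mod_cast hm
    rw [hblock m]
    field_simp
  have := tendsto_of_block (fun i => if dig u v i = k then (1:ℝ) else 0)
    (fun i => by split_ifs <;> norm_num) (fun i => by split_ifs <;> norm_num) 5 (by norm_num)
    (5 * P k) hlim
  have h9 : 5 * P k / ((5:ℕ):ℝ) = P k := by push_cast; ring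
  rwa [h9] at this

/-- At most a third of the digits of `x/2` are ones. -/
theorem sum_dig2 (u v : ℕ → ℕ) (m : ℕ) :
    ∑ i ∈ Finset.range (3 * m), (if dig2 u v i = 1 then (1:ℝ) else 0) ≤ m := by
  induction m with
  | zero => simp
  | succ m ih =>
    rw [show 3 * (m + 1) = 3 * m + 3 by ring, Finset.sum_range_succ, Finset.sum_range_succ,
      Finset.sum_range_succ]
    have e0 : dig2 u v (3 * m) ≠ 1 := by
      unfold dig2
      have : (3 * m) % 3 = 0 := by omega
      simp [this]
    have e1 : dig2 u v (3 * m + 1) ≠ 1 := by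
      unfold dig2
      have : (3 * m + 1) % 3 = 1 := by omega
      simp [this]
    rw [if_neg e0, if_neg e1]
    have e2 : (if dig2 u v (3 * m + 2) = 1 then (1:ℝ) else 0) ≤ 1 := by
      split_ifs <;> norm_num
    push_cast
    linarith

/-- complete quotients of `x/2`. -/
noncomputable def eta (ξ : ℕ → ℝ) (i : ℕ) : ℝ :=
  if i % 3 = 0 then 2 * ξ (5 * (i / 3))
  else if i % 3 = 1 then 2 * ξ (5 * (i / 3) + 3) + 1
  else ξ (5 * (i / 3) + 4) / 2

theorem eta_spec (u v : ℕ → ℕ) (ξ : ℕ → ℝ)
    (h : ∀ i, 1 < ξ i ∧ ξ i = dig u v i + 1 / ξ (i + 1)) (i : ℕ) :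
    1 < eta ξ i ∧ eta ξ i = dig2 u v i + 1 / eta ξ (i + 1) := by
  obtain ⟨m, r, hr, rfl⟩ : ∃ m r, r < 3 ∧ i = 3 * m + r :=
    ⟨i / 3, i % 3, Nat.mod_lt _ (by norm_num), (Nat.div_add_mod i 3).symm⟩
  have e0 : dig u v (5 * m) = u m + 1 := by
    unfold dig
    have : (5 * m) % 5 = 0 := by omega
    have h' : (5 * m) / 5 = m := by omega
    simp [this, h']
  have e1 : dig u v (5 * m + 1) = 1 := by
    unfold dig
    have : (5 * m + 1) % 5 = 1 := by omega
    simp [this]
  have e2 : dig u v (5 * m + 2) = 1 := by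
    unfold dig
    have : (5 * m + 2) % 5 = 2 := by omega
    simp [this]
  have e3 : dig u v (5 * m + 3) = u m + 1 := by
    unfold dig
    have : (5 * m + 3) % 5 = 3 := by omega
    have h' : (5 * m + 3) / 5 = m := by omega
    simp [this, h']
  have e4 : dig u v (5 * m + 4) = 2 * (v m + 1) := by
    unfold dig
    have : (5 * m + 4) % 5 = 4 := by omega
    have h' : (5 * m + 4) / 5 = m := by omega
    simp [this, h']
  have q0 := h (5 * m)
  have q1 := h (5 * m + 1)
  have q2 := h (5 * m + 2)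
  have q3 := h (5 * m + 3)
  have q4 := h (5 * m + 4)
  have q5 := h (5 * m + 5)
  rw [e0] at q0
  rw [e1] at q1
  rw [e2] at q2
  rw [e3] at q3
  rw [e4] at q4
  simp only [add_assoc, Nat.reduceAdd] at q1 q2 q3 q4 q5
  push_cast at q0 q1 q2 q3 q4
  have hpos : ∀ j, 0 < ξ j := fun j => by linarith [(h j).1]
  have p0 := hpos (5 * m)
  have p1 := hpos (5 * m + 1)
  have p2 := hpos (5 * m + 2)
  have p3 := hpos (5 * m + 3)
  have p4 := hpos (5 * m + 4)
  have p5 := hpos (5 * m + 5)
  interval_cases r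
  · have a1 : (3 * m + 0) % 3 = 0 := by omega
    have a2 : (3 * m + 0) / 3 = m := by omega
    have a3 : (3 * m + 0 + 1) % 3 = 1 := by omega
    have a4 : (3 * m + 0 + 1) / 3 = m := by omega
    have hη : eta ξ (3 * m + 0) = 2 * ξ (5 * m) := by
      unfold eta; rw [if_pos a1, a2]
    have hη1 : eta ξ (3 * m + 0 + 1) = 2 * ξ (5 * m + 3) + 1 := by
      unfold eta; rw [if_neg (by omega), if_pos a3, a4]
    have hd : dig2 u v (3 * m + 0) = 2 * (u m + 1) + 1 := by
      unfold dig2; rw [if_pos a1, a2]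
    rw [hη, hη1, hd]
    refine ⟨by linarith [q0.1], ?_⟩
    push_cast
    have h1 : ξ (5 * m + 1) = (2 * ξ (5 * m + 3) + 1) / (ξ (5 * m + 3) + 1) := by
      rw [q1.2, q2.2]
      field_simp
      ring
    rw [q0.2, h1]
    field_simp
    ring
  · have a1 : (3 * m + 1) % 3 = 1 := by omega
    have a2 : (3 * m + 1) / 3 = m := by omega
    have a3 : (3 * m + 1 + 1) % 3 = 2 := by omega
    have a4 : (3 * m + 1 + 1) / 3 = m := by omega
    have hη : eta ξ (3 * m + 1) = 2 * ξ (5 * m + 3) + 1 := by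
      unfold eta; rw [if_neg (by omega), if_pos a1, a2]
    have hη1 : eta ξ (3 * m + 1 + 1) = ξ (5 * m + 4) / 2 := by
      unfold eta; rw [if_neg (by omega), if_neg (by omega), a4]
    have hd : dig2 u v (3 * m + 1) = 2 * (u m + 1) + 1 := by
      unfold dig2; rw [if_neg (by omega), if_pos a1, a2]
    rw [hη, hη1, hd]
    refine ⟨by linarith, ?_⟩
    push_cast
    rw [q3.2]
    field_simp
    ring
  · have a1 : (3 * m + 2) % 3 = 2 := by omega
    have a2 : (3 * m + 2) / 3 = m := by omega
    have a3 : (3 * m + 2 + 1) % 3 = 0 := by omega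
    have a4 : (3 * m + 2 + 1) / 3 = m + 1 := by omega
    have hη : eta ξ (3 * m + 2) = ξ (5 * m + 4) / 2 := by
      unfold eta; rw [if_neg (by omega), if_neg (by omega), a2]
    have hη1 : eta ξ (3 * m + 2 + 1) = 2 * ξ (5 * m + 5) := by
      unfold eta; rw [if_pos a3, a4]
      rw [show 5 * (m + 1) = 5 * m + 5 by ring]
    have hd : dig2 u v (3 * m + 2) = v m + 1 := by
      unfold dig2; rw [if_neg (by omega), if_neg (by omega), a2]
    rw [hη, hη1, hd]
    have hq : 0 < 1 / ξ (5 * m + 5) := by positivity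
    have hv : (0:ℝ) ≤ v m := Nat.cast_nonneg _
    refine ⟨by rw [q4.2]; linarith, ?_⟩
    push_cast
    rw [q4.2]
    field_simp
    try ring

/-- There is a CF-simply normal `x` with `x/2` not CF-simply normal. -/
theorem main : ∃ x : ℝ,
    (∀ k : ℕ, 1 ≤ k → Tendsto
      (fun n : ℕ => (((Finset.range n).filter
        (fun i => (GenContFract.of x).partDens.get? i = some (k : ℝ))).card : ℝ) / (n : ℝ))
      atTop (𝓝 (P k))) ∧
    ¬ Tendsto
      (fun n : ℕ => (((Finset.range n).filter
        (fun i => (GenContFract.of (x / 2)).partDens.get? i = some ((1:ℕ) : ℝ))).card : ℝ) / (n : ℝ))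
      atTop (𝓝 (P 1)) := by
  obtain ⟨u, hu⟩ := exists_seq pA pA_nonneg hasSum_pA
  obtain ⟨v, hv⟩ := exists_seq pB pB_nonneg hasSum_pB
  obtain ⟨ξ, hξ⟩ := exists_quot (dig u v) (dig_pos u v)
  have hη := eta_spec u v ξ hξ
  have hfr : ∀ y : ℝ, 1 < y → Int.fract (1 / y) = 1 / y := by
    intro y hy
    rw [Int.fract_eq_self]
    refine ⟨by positivity, ?_⟩
    rw [div_lt_one (by linarith)]
    exact hy
  refine ⟨1 / ξ 0, ?_, ?_⟩
  · intro k hk
    have h1 := freq_dig u v hu hv k hk
    refine h1.congr fun n => ?_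
    rw [card_eq_sum (1 / ξ 0) (dig u v) ξ hξ (hfr _ (hξ 0).1) n k]
  · intro hT
    have h0 : eta ξ 0 = 2 * ξ 0 := by simp [eta]
    have h2 : Int.fract (1 / ξ 0 / 2) = 1 / eta ξ 0 := by
      have h3 : 1 / ξ 0 / 2 = 1 / eta ξ 0 := by
        rw [h0]
        have : 0 < ξ 0 := by linarith [(hξ 0).1]
        field_simp
      rw [h3]
      exact hfr _ (hη 0).1
    have h4 : Tendsto (fun m : ℕ => 3 * m) atTop atTop :=
      tendsto_id.const_mul_atTop' (by norm_num)
    have h5 := hT.comp h4
    have h6 : P 1 ≤ 1 / 3 := by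
      refine le_of_tendsto h5 ?_
      filter_upwards [eventually_gt_atTop 0] with m hm
      have hmR : (0:ℝ) < m := by exact_mod_cast hm
      simp only [Function.comp_apply]
      rw [card_eq_sum (1 / ξ 0 / 2) (dig2 u v) (eta ξ) hη h2 (3 * m) 1]
      rw [div_le_div_iff₀ (by push_cast; positivity) (by norm_num)]
      have := sum_dig2 u v m
      push_cast
      linarith
    linarith [P1_gt]

end Pool.Agent.H173R3.CFSimple
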